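import Mathlib

set_option autoImplicit false

open scoped ComplexOrder

namespace Pool.Agent.Results.MP_e53bfd_an.NonseparableNoFactor

/-- The reproducing kernel `K(x,y) = k_y(x)` of a scalar RKHS (Mathlib's class `RKHS`). -/
noncomputable def K {X : Type} (H : Type) [NormedAddCommGroup H] [InnerProductSpace ℂ H]
    [CompleteSpace H] [RKHS ℂ H X ℂ] (x y : X) : ℂ :=
  RKHS.kernel H x y 1

/-- `φ : X → ℂ` is a multiplier of `H`: `φ f ∈ H` for all `f ∈ H`. -/
def IsMultiplier {X : Type} (H : Type) [NormedAddCommGroup H] [InnerProductSpace ℂ H]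
    [RKHS ℂ H X ℂ] (φ : X → ℂ) : Prop :=
  ∀ f : H, ∃ g : H, ∀ x, g x = φ x * f x

/-- `Φ : X → M_n(ℂ)` is a multiplier of `H ⊗ ℂ^n` of multiplier norm at most `1`. -/
def IsContractiveMultiplier {X : Type} (H : Type) [NormedAddCommGroup H]
    [InnerProductSpace ℂ H] [RKHS ℂ H X ℂ] {n : ℕ}
    (Φ : X → Matrix (Fin n) (Fin n) ℂ) : Prop :=
  ∀ F : Fin n → H, ∃ G : Fin n → H,
    (∀ x a, G a x = ∑ b, Φ x a b * F b x) ∧ ∑ a, ‖G a‖ ^ 2 ≤ ∑ b, ‖F b‖ ^ 2

/-- The complete Pick property. -/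
def CompletePick {X : Type} (H : Type) [NormedAddCommGroup H] [InnerProductSpace ℂ H]
    [CompleteSpace H] [RKHS ℂ H X ℂ] : Prop :=
  ∀ (n m : ℕ) (x : Fin m → X) (W : Fin m → Matrix (Fin n) (Fin n) ℂ),
    (Matrix.of fun p q : Fin m × Fin n =>
      (1 - W p.1 * (W q.1).conjTranspose) p.2 q.2 * K H (x p.1) (x q.1)).PosSemidef →
    ∃ Φ : X → Matrix (Fin n) (Fin n) ℂ, IsContractiveMultiplier H Φ ∧ ∀ i, Φ (x i) = W i

/-- `g` is cyclic: the closure of `M(H) g` is all of `H`. -/
def IsCyclic {X : Type} (H : Type) [NormedAddCommGroup H] [InnerProductSpace ℂ H]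
    [RKHS ℂ H X ℂ] (g : H) : Prop :=
  closure {u : H | ∃ φ : X → ℂ, IsMultiplier H φ ∧ ∀ x, u x = φ x * g x} = Set.univ

/-! ### The space `ℓ²(ℝ)` as an RKHS on the set `ℝ` -/

abbrev L2 : Type := lp (fun _ : ℝ => ℂ) 2

noncomputable instance instR : RKHS ℂ L2 ℝ ℂ where
  coeCLM := ContinuousLinearMap.pi fun x =>
    LinearMap.mkContinuous
      { toFun := fun f : L2 => f x
        map_add' := fun f g => by simp
        map_smul' := fun c f => by simp } 1
      (fun f => by rw [one_mul]; exact lp.norm_apply_le_norm (by norm_num) f x)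
  coeCLM_injective := by
    intro f g h
    ext x
    exact congrFun h x

theorem coe_eq (f : L2) (x : ℝ) : RKHS.instFunLike.coe f x = (f : ℝ → ℂ) x := rfl

theorem kerFun_eq (y : ℝ) : RKHS.kerFun L2 y 1 = lp.single 2 y (1 : ℂ) := by
  refine ext_inner_right ℂ fun f => ?_
  rw [RKHS.kerFun_inner, lp.inner_single_left]
  rfl

theorem K_eq (x y : ℝ) : K L2 x y = if x = y then 1 else 0 := by
  unfold K
  rw [← RKHS.kerFun_apply, kerFun_eq, coe_eq]
  by_cases h : x = y
  · subst h; simp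
  · rw [if_neg h]
    simp [lp.single_apply, h]

theorem contr_of_psd {n : ℕ} (W : Matrix (Fin n) (Fin n) ℂ)
    (h : (1 - W * W.conjTranspose).PosSemidef) (v : Fin n → ℂ) :
    ∑ a, ‖∑ b, W a b * v b‖ ^ 2 ≤ ∑ b, ‖v b‖ ^ 2 := by
  classical
  set u : Fin n → ℂ := W.mulVec v with hu
  have key : ∀ w : Fin n → ℂ, ∑ a, ‖(W.conjTranspose.mulVec w) a‖ ^ 2 ≤ ∑ a, ‖w a‖ ^ 2 := by
    intro w
    have h1 := h.re_dotProduct_nonneg w
    have h2 : star w ⬝ᵥ (1 - W * W.conjTranspose).mulVec w =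
        (∑ a, (‖w a‖ ^ 2 : ℝ) : ℝ) - ((∑ a, ‖(W.conjTranspose.mulVec w) a‖ ^ 2 : ℝ) : ℂ) := by
      rw [Matrix.sub_mulVec, Matrix.one_mulVec, dotProduct_sub, ← Matrix.mulVec_mulVec,
        Matrix.dotProduct_mulVec]
      have e1 : Matrix.vecMul (star w) W = star (W.conjTranspose.mulVec w) := by
        rw [Matrix.star_mulVec, Matrix.conjTranspose_conjTranspose]
      rw [e1]
      congr 1
      · simp only [dotProduct, Pi.star_apply]
        push_cast
        refine Finset.sum_congr rfl fun a _ => ?_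
        rw [← Complex.conj_mul']
        rfl
      · simp only [dotProduct, Pi.star_apply]
        push_cast
        refine Finset.sum_congr rfl fun a _ => ?_
        rw [← Complex.conj_mul']
        rfl
    rw [h2] at h1
    simp only [RCLike.re_to_complex, Complex.sub_re, Complex.ofReal_re] at h1
    linarith
  have e0 : ∀ a, ∑ b, W a b * v b = u a := fun a => rfl
  simp_rw [e0]
  -- Cauchy-Schwarz
  have hcs : (∑ a, ‖u a‖ ^ 2 : ℝ) ^ 2 ≤ (∑ b, ‖v b‖ ^ 2) * ∑ a, ‖u a‖ ^ 2 := by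
    have e1 : ((∑ a, ‖u a‖ ^ 2 : ℝ) : ℂ) = star v ⬝ᵥ (W.conjTranspose.mulVec u) := by
      rw [Matrix.dotProduct_mulVec, ← Matrix.star_mulVec]
      simp only [dotProduct, Pi.star_apply]
      push_cast
      refine Finset.sum_congr rfl fun a _ => ?_
      rw [← Complex.conj_mul']
      rfl
    have e2 : (∑ a, ‖u a‖ ^ 2 : ℝ) ≤ ∑ b, ‖v b‖ * ‖(W.conjTranspose.mulVec u) b‖ := by
      have h3 : ‖((∑ a, ‖u a‖ ^ 2 : ℝ) : ℂ)‖ ≤ ∑ b, ‖v b‖ * ‖(W.conjTranspose.mulVec u) b‖ := by
        rw [e1]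
        refine (norm_sum_le _ _).trans (le_of_eq ?_)
        refine Finset.sum_congr rfl fun b _ => ?_
        simp
      rwa [Complex.norm_real, Real.norm_of_nonneg (by positivity)] at h3
    have e3 : (∑ b, ‖v b‖ * ‖(W.conjTranspose.mulVec u) b‖) ^ 2 ≤
        (∑ b, ‖v b‖ ^ 2) * ∑ b, ‖(W.conjTranspose.mulVec u) b‖ ^ 2 :=
      Finset.sum_mul_sq_le_sq_mul_sq _ _ _
    calc (∑ a, ‖u a‖ ^ 2 : ℝ) ^ 2
        ≤ (∑ b, ‖v b‖ * ‖(W.conjTranspose.mulVec u) b‖) ^ 2 := by
          gcongr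
      _ ≤ _ := e3
      _ ≤ (∑ b, ‖v b‖ ^ 2) * ∑ a, ‖u a‖ ^ 2 :=
          mul_le_mul_of_nonneg_left (key u) (by positivity)
  by_cases h0 : (∑ a, ‖u a‖ ^ 2 : ℝ) = 0
  · rw [h0]; positivity
  · have hpos : 0 < (∑ a, ‖u a‖ ^ 2 : ℝ) := lt_of_le_of_ne (by positivity) (Ne.symm h0)
    rw [sq] at hcs
    exact le_of_mul_le_mul_right hcs hpos

theorem eq_of_psd {n : ℕ} (A B : Matrix (Fin n) (Fin n) ℂ)
    (h : ∀ v : Fin n → ℂ, 0 ≤ (star v ⬝ᵥ
      ((1 - A * A.conjTranspose).mulVec v - (1 - A * B.conjTranspose).mulVec v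
        - (1 - B * A.conjTranspose).mulVec v + (1 - B * B.conjTranspose).mulVec v)).re) :
    A = B := by
  have h1 : ∀ v : Fin n → ℂ, ((A - B).conjTranspose).mulVec v = 0 := by
    intro v
    have h2 := h v
    have e1 : (1 - A * A.conjTranspose).mulVec v - (1 - A * B.conjTranspose).mulVec v
        - (1 - B * A.conjTranspose).mulVec v + (1 - B * B.conjTranspose).mulVec v
        = - ((A - B) * (A - B).conjTranspose).mulVec v := by
      rw [← Matrix.sub_mulVec, ← Matrix.sub_mulVec, ← Matrix.add_mulVec, ← Matrix.neg_mulVec]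
      congr 1
      rw [Matrix.conjTranspose_sub]
      noncomm_ring
    rw [e1, dotProduct_neg, ← Matrix.mulVec_mulVec, Matrix.dotProduct_mulVec] at h2
    have e2 : Matrix.vecMul (star v) (A - B) = star ((A - B).conjTranspose.mulVec v) := by
      rw [Matrix.star_mulVec, Matrix.conjTranspose_conjTranspose]
    rw [e2] at h2
    set w := (A - B).conjTranspose.mulVec v with hw
    have e3 : star w ⬝ᵥ w = ((∑ a, ‖w a‖ ^ 2 : ℝ) : ℂ) := by
      simp only [dotProduct, Pi.star_apply]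
      push_cast
      refine Finset.sum_congr rfl fun a _ => ?_
      rw [← Complex.conj_mul']
      rfl
    rw [e3, Complex.neg_re, Complex.ofReal_re] at h2
    have h4 : (∑ a, ‖w a‖ ^ 2 : ℝ) = 0 := le_antisymm (by linarith) (by positivity)
    rw [Finset.sum_eq_zero_iff_of_nonneg (fun _ _ => by positivity)] at h4
    ext a
    have := h4 a (Finset.mem_univ a)
    simpa using this
  have h2 : (A - B).conjTranspose = 0 := by
    ext i j
    have := congrFun (h1 (Pi.single j 1)) i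
    simpa using this
  have h3 : A - B = 0 := by
    rw [← Matrix.conjTranspose_conjTranspose (A - B), h2, Matrix.conjTranspose_zero]
  exact sub_eq_zero.1 h3

theorem memlp_of {n : ℕ} (Φ : ℝ → Matrix (Fin n) (Fin n) ℂ)
    (hΦ : ∀ x, ∀ v : Fin n → ℂ, ∑ a, ‖∑ b, Φ x a b * v b‖ ^ 2 ≤ ∑ b, ‖v b‖ ^ 2) :
    IsContractiveMultiplier L2 Φ := by
  intro F
  have hsF : ∀ b, Summable fun x => ‖(F b : ℝ → ℂ) x‖ ^ 2 := by
    intro b
    have := (lp.memℓp (F b)).summable (by norm_num)
    simpa using this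
  have hsF' : Summable fun x => ∑ b, ‖(F b : ℝ → ℂ) x‖ ^ 2 := summable_sum fun b _ => hsF b
  have hmem : ∀ a, Memℓp (fun x : ℝ => ∑ b, Φ x a b * (F b : ℝ → ℂ) x) 2 := by
    intro a
    refine memℓp_gen ?_
    have : Summable fun x : ℝ => ‖∑ b, Φ x a b * (F b : ℝ → ℂ) x‖ ^ 2 := by
      refine Summable.of_nonneg_of_le (fun _ => by positivity) (fun x => ?_) hsF'
      refine le_trans ?_ (hΦ x fun b => (F b : ℝ → ℂ) x)
      exact Finset.single_le_sum (f := fun a => ‖∑ b, Φ x a b * (F b : ℝ → ℂ) x‖ ^ 2)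
        (fun _ _ => by positivity) (Finset.mem_univ a)
    simpa using this
  refine ⟨fun a => ⟨_, hmem a⟩, fun x a => rfl, ?_⟩
  have hnorm : ∀ f : L2, ‖f‖ ^ 2 = ∑' x, ‖(f : ℝ → ℂ) x‖ ^ 2 := by
    intro f
    have := lp.norm_rpow_eq_tsum (p := 2) (by norm_num) f
    simpa using this
  simp_rw [hnorm]
  have hsG : ∀ a, Summable fun x : ℝ => ‖∑ b, Φ x a b * (F b : ℝ → ℂ) x‖ ^ 2 := by
    intro a
    have := (hmem a).summable (by norm_num)
    simpa using this
  rw [← Summable.tsum_finsetSum (fun b _ => hsF b)]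
  rw [← Summable.tsum_finsetSum (fun a _ => hsG a)]
  exact Summable.tsum_le_tsum (fun x => hΦ x fun b => (F b : ℝ → ℂ) x)
    (summable_sum fun a _ => hsG a) hsF'

theorem completePick_L2 : CompletePick L2 := by
  classical
  intro n m x W hpsd
  -- each `W i` is contractive
  have hdiag : ∀ i, (1 - W i * (W i).conjTranspose).PosSemidef := by
    intro i
    have := hpsd.submatrix (fun a : Fin n => (i, a))
    convert this using 1
    ext a b
    simp [K_eq]
  -- equal points carry equal matrices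
  have heq : ∀ i j, x i = x j → W i = W j := by
    intro i j hij
    by_cases hne : i = j
    · rw [hne]
    refine eq_of_psd _ _ fun v => ?_
    set M : Matrix (Fin m × Fin n) (Fin m × Fin n) ℂ := Matrix.of fun p q : Fin m × Fin n =>
      (1 - W p.1 * (W q.1).conjTranspose) p.2 q.2 * K L2 (x p.1) (x q.1) with hM
    have h1 := hpsd.re_dotProduct_nonneg
      ((fun p : Fin m × Fin n => if p.1 = i then v p.2 else 0) -
        (fun p : Fin m × Fin n => if p.1 = j then v p.2 else 0))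
    refine le_of_le_of_eq h1 ?_
    rw [RCLike.re_to_complex]
    congr 1
    have hb : ∀ k l : Fin m, x k = x l →
        star (fun p : Fin m × Fin n => if p.1 = k then v p.2 else 0) ⬝ᵥ
          M.mulVec (fun p : Fin m × Fin n => if p.1 = l then v p.2 else 0)
          = star v ⬝ᵥ (1 - W k * (W l).conjTranspose).mulVec v := by
      intro k l hkl
      simp only [dotProduct, Matrix.mulVec, Fintype.sum_prod_type, Pi.star_apply, hM,
        Matrix.of_apply, mul_ite, mul_zero, K_eq, mul_one]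
      rw [Finset.sum_eq_single k]
      · refine Finset.sum_congr rfl fun a _ => ?_
        rw [if_pos rfl]
        congr 1
        rw [Finset.sum_eq_single l]
        · simp [hkl]
        · intro l' _ hl'
          simp [hl']
        · simp
      · intro k' _ hk'
        simp [hk']
      · simp
    rw [star_sub, Matrix.mulVec_sub, sub_dotProduct, dotProduct_sub, dotProduct_sub,
      hb i i rfl, hb i j hij, hb j i hij.symm, hb j j rfl, dotProduct_add, dotProduct_sub,
      dotProduct_sub]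
    ring
  refine ⟨fun z => if h : ∃ i, x i = z then W h.choose else 0, ?_, ?_⟩
  · refine memlp_of _ fun z v => ?_
    by_cases h : ∃ i, x i = z
    · simp only [h, ↓reduceDIte]
      exact contr_of_psd _ (hdiag _) v
    · simp only [h, ↓reduceDIte]
      have : (∑ a : Fin n, ‖∑ b, (0 : Matrix (Fin n) (Fin n) ℂ) a b * v b‖ ^ 2 : ℝ) = 0 := by
        simp
      rw [this]
      positivity
  · intro i
    have h : ∃ j, x j = x i := ⟨i, rfl⟩
    simp only [h, ↓reduceDIte]
    exact heq _ _ h.choose_spec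

theorem not_cyclic (g : L2) : ¬ IsCyclic L2 g := by
  intro hg
  -- the support of `g` is countable
  have hs : Summable fun x => ‖(g : ℝ → ℂ) x‖ ^ 2 := by
    have := (lp.memℓp g).summable (by norm_num)
    simpa using this
  have hc : (Function.support fun x => ‖(g : ℝ → ℂ) x‖ ^ 2).Countable := hs.countable_support
  have hne : (Function.support fun x => ‖(g : ℝ → ℂ) x‖ ^ 2) ≠ Set.univ := by
    intro h
    rw [h] at hc
    exact Cardinal.not_countable_real hc
  obtain ⟨x₀, hx₀⟩ := (Set.ne_univ_iff_exists_notMem _).1 hne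
  have hg0 : (g : ℝ → ℂ) x₀ = 0 := by
    simpa using hx₀
  have hsub : {u : L2 | ∃ φ : ℝ → ℂ, IsMultiplier L2 φ ∧ ∀ x, u x = φ x * g x} ⊆
      {u : L2 | u x₀ = 0} := by
    rintro u ⟨φ, -, hu⟩
    have h1 := hu x₀
    have h2 : φ x₀ * (g : ℝ → ℂ) x₀ = 0 := by rw [hg0, mul_zero]
    exact h1.trans h2
  have hclosed : IsClosed {u : L2 | u x₀ = 0} :=
    isClosed_eq (RKHS.continuous_eval x₀) continuous_const
  have h1 : (lp.single 2 x₀ (1 : ℂ) : L2) ∈ {u : L2 | u x₀ = 0} :=
    closure_minimal hsub hclosed (hg ▸ Set.mem_univ _)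
  have h2 : RKHS.instFunLike.coe (lp.single 2 x₀ (1 : ℂ) : L2) x₀ = 0 := h1
  rw [coe_eq] at h2
  simp at h2

/-- There is a complete Pick space in which no function at all is the product of a
multiplier and a cyclic function. -/
theorem result : ∃ (X H : Type) (_ : NormedAddCommGroup H) (_ : InnerProductSpace ℂ H)
    (_ : CompleteSpace H) (_ : RKHS ℂ H X ℂ),
    CompletePick H ∧ ∀ f : H, ¬ ∃ (h : X → ℂ) (g : H),
      IsMultiplier H h ∧ IsCyclic H g ∧ ∀ x, f x = h x * g x :=
  ⟨ℝ, L2, inferInstance, inferInstance, inferInstance, instR, completePick_L2,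
    fun _ ⟨_, g, _, hg, _⟩ => not_cyclic g hg⟩

end Pool.Agent.Results.MP_e53bfd_an.NonseparableNoFactor
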